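import Pool.Agent.H78.INS.Num

/-!
# Module FNP: the piece of a path after the last visit to the strip of the box
-/

open Pool.Agent.H99.NS Pool.Agent.H22.LPP

namespace Pool.Agent.H78.INS

open Pool.Agent.H95.INS

/-- Integer absolute values as real absolute values. -/
theorem cast_abs_le {x c w : ℤ} (h : |x| ≤ c * w) : |(x : ℝ)| ≤ (c : ℝ) * w := by
  exact_mod_cast h

theorem X_ge {D : Dat} (h : D.Ok) : D.A * D.w ≤ D.X := by
  have h1 := h.X1
  have h2 := ok_Aw h
  have h3 : 16 * D.A * D.w = 16 * (D.A * D.w) := by ring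
  omega

theorem max_sq_le {D : Dat} (hD : D.Ok) {x y : ℤ} (hx : |x| ≤ D.A * D.w) {b : ℝ}
    (hb : b = |(y : ℝ)| / D.w) :
    (max 0 (b - D.A) * D.w) ^ 2 ≤ ((y - x : ℤ) : ℝ) ^ 2 := by
  have hw := ok_w hD
  have h1 : |(x : ℝ)| ≤ D.A * D.w := cast_abs_le hx
  have h2 : b * D.w = |(y : ℝ)| := by
    rw [hb, div_mul_cancel₀]
    linarith
  rw [← sq_abs (((y - x : ℤ) : ℝ))]
  apply pow_le_pow_left₀
  · exact mul_nonneg (le_max_left _ _) (by linarith)
  · push_cast
    have h3 := abs_sub_abs_le_abs_sub (y : ℝ) x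
    rw [max_mul_of_nonneg _ _ (by linarith : (0 : ℝ) ≤ D.w)]
    apply max_le
    · rw [zero_mul]; exact abs_nonneg _
    · rw [sub_mul, h2]
      linarith

theorem X2_ge {D : Dat} (h : D.Ok) : D.X ≤ 256 * D.n := by
  have h1 := h.X2
  have h2 := ok_Aw h
  omega

theorem pf_FNP : T_FNP := by
  intro D ω ω' hD hA h1 s g hs1 hs2 hp hX hs hout b hb
  have hn := hD.n1
  have hnr := ok_n hD
  have hwr := ok_w hD
  have hAr := ok_A hD
  have hAw := ok_Aw hD
  have hX1 := hD.X1
  have e16 : 16 * D.A * D.w = 16 * (D.A * D.w) := by ring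
  have hb0 : 0 ≤ b := by rw [hb]; positivity
  have hbw : b * D.w = |(g (4 * D.n) : ℝ)| := by
    rw [hb, div_mul_cancel₀]
    linarith
  have hKf : 0 ≤ D.K * D.f := mul_nonneg hD.K0 hD.f0.le
  have hS := ok_sg hD
  rcases eq_or_lt_of_le hs2 with h4 | h4
  · -- `s = 4 n`
    subst h4
    have hw0 : wt ω (4 * D.n) (4 * D.n) g = 0 := by
      unfold wt
      simp
    have hbA : b ≤ D.A := by
      rw [hb, div_le_iff₀ (by linarith)]
      exact cast_abs_le hs
    constructor
    · rw [hw0, max_eq_left (by linarith : b - D.A ≤ 0), sub_self]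
      have : 0 ≤ 2 * D.K * (1 + 16 * D.A + b) * D.f := by
        have := mul_nonneg hKf (by positivity : 0 ≤ 1 + 16 * (D.A : ℝ) + b)
        nlinarith
      simp only [Int.cast_zero, mul_zero, zero_add, ne_eq, OfNat.ofNat_ne_zero, not_false_eq_true,
        zero_pow, zero_mul, sub_zero]
      exact this
    · rintro ⟨r, hr1, hr2, hr3⟩
      exfalso
      have : r = 4 * D.n := le_antisymm hr2 hr1
      subst this
      omega
  · -- `s < 4 n`
    have hag : ∀ s' t', s ≤ s' → t' ≤ 4 * D.n → wt ω s' t' g = wt ω' s' t' g := by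
      intro s' t' h5 h6
      apply wt_agree hA
      intro r hr1 hr2
      exact (hout r (by omega) (by omega)).le
    have hXs : |g s| ≤ D.X := hs.trans (X_ge hD)
    have c1 : |(g s : ℝ)| ≤ (16 * D.A + b) * D.w := by
      have h5 : |(g s : ℝ)| ≤ D.A * D.w := cast_abs_le hs
      have h6 : 0 ≤ (15 * D.A + b) * D.w := by positivity
      linarith
    have c2 : |(g (4 * D.n) : ℝ)| ≤ (16 * D.A + b) * D.w := by
      rw [← hbw]
      have h6 : 0 ≤ (16 * (D.A : ℝ)) * D.w := by positivity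
      linarith
    have hKb : 0 ≤ D.K * D.f * (1 + (16 * D.A + b)) := mul_nonneg hKf (by positivity)
    have first : wt ω s (4 * D.n) g ≤ mu D.q * ((4 * D.n - s : ℤ) : ℝ) +
      2 * D.K * (1 + 16 * D.A + b) * D.f -
      sg D.q / 2 / (51 / 50) * (max 0 (b - D.A)) ^ 2 * D.f := by
      have h5 := O1_par hD h1 (s := s) (t := 4 * D.n) (g := g) (by omega) hs2 (by omega) hp hXs hX
        c1 c2 (by omega) (max_sq_le hD hs hb)
      rw [hag s (4 * D.n) le_rfl le_rfl]
      linarith
    refine ⟨first, ?_⟩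
    rintro ⟨r, hr1, hr2, hr3⟩
    rcases le_or_gt (16 * D.A * D.w) |g (4 * D.n)| with h6 | h6
    · -- far at the end
      have h7 : 16 * (D.A : ℝ) ≤ b := by
        rw [hb, le_div_iff₀ (by linarith)]
        exact_mod_cast h6
      have h8 : (15 * (D.A : ℝ)) ^ 2 ≤ (max 0 (b - D.A)) ^ 2 := by
        apply pow_le_pow_left₀ (by positivity)
        apply le_max_of_le_right
        linarith
      have h9 : sg D.q / 2 / (51 / 50) * (15 * (D.A : ℝ)) ^ 2 * D.f ≤
          sg D.q / 2 / (51 / 50) * (max 0 (b - D.A)) ^ 2 * D.f := by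
        apply mul_le_mul_of_nonneg_right _ hD.f0.le
        apply mul_le_mul_of_nonneg_left h8
        positivity
      linarith
    · -- first hitting time of `16 A w`
      obtain ⟨m, m1, m2, m3, m4⟩ := first_hit_eq (c := 16 * D.A * D.w) hp (by omega)
        ⟨r, hr1, hr2, hr3⟩
      have hXm : |g m| ≤ D.X := by omega
      have d1 : |(g s : ℝ)| ≤ (16 * D.A) * D.w := by
        have h5 : |(g s : ℝ)| ≤ D.A * D.w := cast_abs_le hs
        have h6 : 0 ≤ (15 * (D.A : ℝ)) * D.w := by positivity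
        linarith
      have d2 : |(g m : ℝ)| ≤ (16 * D.A) * D.w := by
        have : |g m| ≤ (16 * D.A) * D.w := m3.le
        exact_mod_cast this
      have d3 : |(g (4 * D.n) : ℝ)| ≤ (16 * D.A) * D.w := by
        have : |g (4 * D.n)| ≤ (16 * D.A) * D.w := h6.le
        exact_mod_cast this
      have e1 : ((15 * (D.A : ℝ)) * D.w) ^ 2 ≤ ((g m - g s : ℤ) : ℝ) ^ 2 := by
        have h5 : 15 * D.A * D.w ≤ |g m - g s| := by
          have := abs_sub_abs_le_abs_sub (g m) (g s)
          have e15 : 15 * D.A * D.w = 15 * (D.A * D.w) := by ring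
          omega
        rw [← sq_abs (((g m - g s : ℤ) : ℝ))]
        apply pow_le_pow_left₀ (by positivity)
        exact_mod_cast h5
      have p1 := O1_par hD h1 (s := s) (t := m) (g := g) (by omega) m1 (by omega)
        (isPath_sub hp le_rfl m2) hXs hXm d1 d2 (by omega) e1
      have p2 := O1_le' hD h1 (s := m) (t := 4 * D.n) (g := g) (by omega) m2 (by omega)
        (isPath_sub hp m1 le_rfl) hXm hX d2 d3
      rw [hag s (4 * D.n) le_rfl le_rfl, wt_add ω' m1 m2]
      have e2 : mu D.q * ((4 * D.n - s : ℤ) : ℝ) =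
          mu D.q * ((m - s : ℤ) : ℝ) + mu D.q * ((4 * D.n - m : ℤ) : ℝ) := by
        push_cast; ring
      rw [e2]
      have e3 : 0 ≤ D.K * D.f * b := mul_nonneg hKf hb0
      linarith

end Pool.Agent.H78.INS

namespace Pool.Agent.H95.INS

theorem pf_FNP : T_FNP := Pool.Agent.H78.INS.pf_FNP

end Pool.Agent.H95.INS
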