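import Pool.Agent.H95.INS.Targets

/-!
# Module GIN: the local leftmost geodesic depends on the box only
-/

open Pool.Agent.H99.NS Pool.Agent.H22.LPP

namespace Pool.Agent.H95.INS

theorem pf_GIN : T_GIN := by
  intro D ω out out' g g' h h' hg hg' r hr1 hr2
  have hle : -(4 * D.n) ≤ 4 * D.n := hr1.trans hr2
  have key : ∀ k : ℤ → ℤ, (∀ r, -(4 * D.n) ≤ r → r ≤ 4 * D.n → |k r| < D.A * D.w) →
      wt (splice (Bx D) ω out) (-(4 * D.n)) (4 * D.n) k =
      wt (splice (Bx D) ω out') (-(4 * D.n)) (4 * D.n) k := by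
    intro k hk
    apply wt_congr
    intro r hr1 hr2
    have hm : ((r, k r) : Site) ∈ Bx D := ⟨hr1, hr2, hk r hr1.le hr2⟩
    rw [splice_of_mem _ _ hm, splice_of_mem _ _ hm]
  have k1 := key g hg
  have k2 := key g' hg'
  have e1 := h.1.2
  have e2 := h'.1.2
  have l1 := le_T (splice (Bx D) ω out') (u := (-(4 * D.n), 0)) (v := (4 * D.n, 0)) hle h.1.1
  have l2 := le_T (splice (Bx D) ω out) (u := (-(4 * D.n), 0)) (v := (4 * D.n, 0)) hle h'.1.1
  simp only at e1 e2 l1 l2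
  have g1 : Geo (splice (Bx D) ω out') (-(4 * D.n), 0) (4 * D.n, 0) g := by
    refine ⟨h.1.1, ?_⟩
    simp only
    linarith
  have g2 : Geo (splice (Bx D) ω out) (-(4 * D.n), 0) (4 * D.n, 0) g' := by
    refine ⟨h'.1.1, ?_⟩
    simp only
    linarith
  exact le_antisymm (h.2 g' g2 r hr1 hr2) (h'.2 g g1 r hr1 hr2)

end Pool.Agent.H95.INS
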