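import Pool.Agent.H78.INS.Pre

/-!
# Numerical facts for the modules W, FNP, S1, S3
-/

open Pool.Agent.H99.NS Pool.Agent.H22.LPP

namespace Pool.Agent.H78.INS

open Pool.Agent.H95.INS

theorem num1 {S n w f tau c d : ℝ} (hS : 0 < S) (hn : 0 < n)
    (hw : w ^ 2 = 8 * n * f) (ht0 : 0 ≤ tau) (ht : tau ≤ 8 * n) (hf : 0 < f)
    (hd : (c * w) ^ 2 ≤ d ^ 2) :
    S / 2 / (51 / 50) * c ^ 2 * f ≤ S / 2 * d ^ 2 / (tau + 8 * n / 50) := by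
  have h1 : 0 < tau + 8 * n / 50 := by positivity
  rw [le_div_iff₀ h1]
  have h2 : S / 2 / (51 / 50) * c ^ 2 * f * (tau + 8 * n / 50) ≤
      S / 2 / (51 / 50) * c ^ 2 * f * (8 * n * (51 / 50)) := by
    apply mul_le_mul_of_nonneg_left
    · linarith
    · positivity
  have h3 : S / 2 / (51 / 50) * c ^ 2 * f * (8 * n * (51 / 50)) = S / 2 * (c * w) ^ 2 := by
    rw [mul_pow, hw]; ring
  have h4 : S / 2 * (c * w) ^ 2 ≤ S / 2 * d ^ 2 := mul_le_mul_of_nonneg_left hd (by positivity)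
  linarith

theorem tangent {P a c : ℝ} (hP : 0 ≤ P) (ha : 0 < a) (hc : 0 < c) :
    P * (2 * c - a) / c ^ 2 ≤ P / a := by
  rw [div_le_div_iff₀ (by positivity) ha]
  have := mul_nonneg hP (sq_nonneg (c - a))
  nlinarith

theorem num2 {S n w f A t1 t2 d1 d2 : ℝ} (hS : 0 < S) (hn : 0 < n)
    (hw : w ^ 2 = 8 * n * f) (ht1 : 0 ≤ t1) (ht2 : 0 ≤ t2) (ht : t1 + t2 ≤ 8 * n) (hf : 0 < f)
    (hd1 : (15 * A * w) ^ 2 ≤ d1 ^ 2) (hd2 : (15 * A * w) ^ 2 ≤ d2 ^ 2) :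
    432 * S * A ^ 2 * f ≤ S / 2 * d1 ^ 2 / (t1 + 8 * n / 50) +
      S / 2 * d2 ^ 2 / (t2 + 8 * n / 50) := by
  have ha : 0 < t1 + 8 * n / 50 := by positivity
  have hb : 0 < t2 + 8 * n / 50 := by positivity
  have hc : 0 < 8 * n * (26 / 50) := by positivity
  have hP : 0 ≤ S / 2 * (15 * A * w) ^ 2 := by positivity
  have e1 : S / 2 * (15 * A * w) ^ 2 / (t1 + 8 * n / 50) ≤ S / 2 * d1 ^ 2 / (t1 + 8 * n / 50) :=
    div_le_div_of_nonneg_right (mul_le_mul_of_nonneg_left hd1 (by positivity)) ha.le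
  have e2 : S / 2 * (15 * A * w) ^ 2 / (t2 + 8 * n / 50) ≤ S / 2 * d2 ^ 2 / (t2 + 8 * n / 50) :=
    div_le_div_of_nonneg_right (mul_le_mul_of_nonneg_left hd2 (by positivity)) hb.le
  have e3 := tangent hP ha hc
  have e4 := tangent hP hb hc
  have e5 : 432 * S * A ^ 2 * f ≤
      S / 2 * (15 * A * w) ^ 2 * (2 * (8 * n * (26 / 50)) - (t1 + 8 * n / 50)) /
        (8 * n * (26 / 50)) ^ 2 +
      S / 2 * (15 * A * w) ^ 2 * (2 * (8 * n * (26 / 50)) - (t2 + 8 * n / 50)) /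
        (8 * n * (26 / 50)) ^ 2 := by
    rw [← add_div, ← mul_add, le_div_iff₀ (by positivity)]
    have h1 : S / 2 * (15 * A * w) ^ 2 * (2 * (8 * n * (26 / 50))) ≤
        S / 2 * (15 * A * w) ^ 2 * (2 * (8 * n * (26 / 50)) - (t1 + 8 * n / 50) +
          (2 * (8 * n * (26 / 50)) - (t2 + 8 * n / 50))) := by
      apply mul_le_mul_of_nonneg_left _ hP
      linarith
    have h2 : S / 2 * (15 * A * w) ^ 2 * (2 * (8 * n * (26 / 50))) =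
        (S * A ^ 2 * f * (8 * n * (26 / 50)) ^ 2) * (225 * 50 / 26) := by
      rw [mul_pow, hw]; ring
    have h3 : 0 ≤ S * A ^ 2 * f * (8 * n * (26 / 50)) ^ 2 := by positivity
    have h4 : 432 * S * A ^ 2 * f * (8 * n * (26 / 50)) ^ 2 =
        (S * A ^ 2 * f * (8 * n * (26 / 50)) ^ 2) * 432 := by ring
    rw [h4]
    refine le_trans ?_ (h2 ▸ h1)
    exact mul_le_mul_of_nonneg_left (by norm_num) h3
  linarith

theorem ok_n {D : Dat} (h : D.Ok) : (1 : ℝ) ≤ D.n := by exact_mod_cast h.n1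

theorem ok_w {D : Dat} (h : D.Ok) : (1 : ℝ) ≤ D.w := by exact_mod_cast h.w1

theorem ok_A {D : Dat} (h : D.Ok) : (2 : ℝ) ≤ D.A := by exact_mod_cast h.A2

/-- `A w ≥ 2`. -/
theorem ok_Aw {D : Dat} (h : D.Ok) : 2 ≤ D.A * D.w := by
  have h1 := h.A2
  have h2 := h.w1
  nlinarith

theorem O1_le {D : Dat} (hD : D.Ok) {ω' : Env} (h1 : O1 D ω') {s t : ℤ} {g : ℤ → ℤ}
    (hs : -(256 * D.n) ≤ s) (hst : s ≤ t) (ht : t ≤ 256 * D.n) (hp : IsPath s t g)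
    (gs : |g s| ≤ D.X) (gt : |g t| ≤ D.X) {c : ℝ} (cs : |(g s : ℝ)| ≤ c * D.w)
    (ct : |(g t : ℝ)| ≤ c * D.w) :
    wt ω' s t g ≤ sp D.q (8 * D.n / 50) s t g + D.K * D.f * (1 + c) := by
  have h2 := h1 s t g hs hst ht hp gs gt
  have h3 : max |(g s : ℝ)| |(g t : ℝ)| / D.w ≤ c := by
    rw [div_le_iff₀ (by linarith [ok_w hD])]
    exact max_le cs ct
  have h4 : D.K * D.f * (1 + max |(g s : ℝ)| |(g t : ℝ)| / D.w) ≤ D.K * D.f * (1 + c) :=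
    mul_le_mul_of_nonneg_left (by linarith) (mul_nonneg hD.K0 hD.f0.le)
  linarith

/-- Drop the parabola. -/
theorem O1_le' {D : Dat} (hD : D.Ok) {ω' : Env} (h1 : O1 D ω') {s t : ℤ} {g : ℤ → ℤ}
    (hs : -(256 * D.n) ≤ s) (hst : s ≤ t) (ht : t ≤ 256 * D.n) (hp : IsPath s t g)
    (gs : |g s| ≤ D.X) (gt : |g t| ≤ D.X) {c : ℝ} (cs : |(g s : ℝ)| ≤ c * D.w)
    (ct : |(g t : ℝ)| ≤ c * D.w) :
    wt ω' s t g ≤ mu D.q * ((t - s : ℤ) : ℝ) + D.K * D.f * (1 + c) := by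
  have h2 := O1_le hD h1 hs hst ht hp gs gt cs ct
  have h3 := sp_le hD.q0 hD.q1 (dl := 8 * D.n / 50) (by have := ok_n hD; positivity) hst g
  linarith

/-- With the parabola. -/
theorem O1_par {D : Dat} (hD : D.Ok) {ω' : Env} (h1 : O1 D ω') {s t : ℤ} {g : ℤ → ℤ}
    (hs : -(256 * D.n) ≤ s) (hst : s ≤ t) (ht : t ≤ 256 * D.n) (hp : IsPath s t g)
    (gs : |g s| ≤ D.X) (gt : |g t| ≤ D.X) {c e : ℝ} (cs : |(g s : ℝ)| ≤ c * D.w)
    (ct : |(g t : ℝ)| ≤ c * D.w) (h8 : t - s ≤ 8 * D.n)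
    (he : (e * D.w) ^ 2 ≤ ((g t - g s : ℤ) : ℝ) ^ 2) :
    wt ω' s t g ≤ mu D.q * ((t - s : ℤ) : ℝ) + D.K * D.f * (1 + c) -
      sg D.q / 2 / (51 / 50) * e ^ 2 * D.f := by
  have h2 := O1_le hD h1 hs hst ht hp gs gt cs ct
  have hn := ok_n hD
  have h3 : (0 : ℝ) ≤ ((t - s : ℤ) : ℝ) := by exact_mod_cast (by omega : 0 ≤ t - s)
  have h4 : ((t - s : ℤ) : ℝ) ≤ 8 * D.n := by exact_mod_cast h8
  have h5 := num1 (ok_sg hD) (n := D.n) (by linarith) hD.sc h3 h4 hD.f0 he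
  unfold sp at h2
  linarith

end Pool.Agent.H78.INS
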