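import Pool.Agent.H95.INS.Targets

/-!
# Auxiliary facts for the modules W, FNP, S1, S3
-/

open Pool.Agent.H99.NS Pool.Agent.H22.LPP

namespace Pool.Agent.H78.INS

open Pool.Agent.H95.INS

theorem sg_pos {q : ℝ} (h0 : 0 < q) (h1 : q < 1) : 0 < sg q := by
  unfold sg
  exact div_pos (Real.sqrt_pos.2 h0) (by linarith)

theorem mu_pos {q : ℝ} (h0 : 0 < q) (h1 : q < 1) : 0 < mu q := by
  unfold mu
  refine div_pos (Real.sqrt_pos.2 h0) ?_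
  have : √q < 1 := by
    rw [Real.sqrt_lt' one_pos]
    linarith
  linarith

/-- The soft parabola is at most the linear term. -/
theorem sp_le {q dl : ℝ} (h0 : 0 < q) (h1 : q < 1) (hd : 0 < dl) {s t : ℤ} (hst : s ≤ t)
    (g : ℤ → ℤ) : sp q dl s t g ≤ mu q * ((t - s : ℤ) : ℝ) := by
  unfold sp
  have h2 : (0 : ℝ) ≤ ((t - s : ℤ) : ℝ) := by exact_mod_cast (by omega : 0 ≤ t - s)
  have h3 : 0 ≤ sg q / 2 * ((g t - g s : ℤ) : ℝ) ^ 2 / (((t - s : ℤ) : ℝ) + dl) :=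
    div_nonneg (mul_nonneg (by linarith [sg_pos h0 h1]) (sq_nonneg _)) (by linarith)
  linarith

theorem ok_sg {D : Dat} (h : D.Ok) : 0 < sg D.q := sg_pos h.q0 h.q1

theorem ok_H {D : Dat} (h : D.Ok) : 70000 * sg D.q ≤ D.H := by
  have h1 := h.c1
  have h2 := ok_sg h
  have h3 : 0 ≤ D.K * (1 + D.B) := mul_nonneg h.K0 (by linarith [h.B0])
  have h4 : 0 ≤ sg D.q * D.B ^ 2 := mul_nonneg h2.le (sq_nonneg _)
  linarith

/-- The first time at which `|g|` reaches the level `c`. -/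
theorem first_hit {s t c : ℤ} (g : ℤ → ℤ) (h : ∃ r, s ≤ r ∧ r ≤ t ∧ c ≤ |g r|) :
    ∃ m, s ≤ m ∧ m ≤ t ∧ c ≤ |g m| ∧ ∀ r, s ≤ r → r < m → |g r| < c := by
  obtain ⟨m, ⟨h1, h2, h3⟩, h4⟩ := Int.exists_least_of_bdd
    (P := fun r => s ≤ r ∧ r ≤ t ∧ c ≤ |g r|) ⟨s, fun z hz => hz.1⟩ h
  refine ⟨m, h1, h2, h3, fun r hr1 hr2 => ?_⟩
  by_contra hc
  have := h4 r ⟨hr1, by omega, not_lt.1 hc⟩
  omega

/-- The first time at which `|g|` is at most `c`. -/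
theorem first_low {s t c : ℤ} (g : ℤ → ℤ) (h : ∃ r, s ≤ r ∧ r ≤ t ∧ |g r| ≤ c) :
    ∃ m, s ≤ m ∧ m ≤ t ∧ |g m| ≤ c ∧ ∀ r, s ≤ r → r < m → c < |g r| := by
  obtain ⟨m, ⟨h1, h2, h3⟩, h4⟩ := Int.exists_least_of_bdd
    (P := fun r => s ≤ r ∧ r ≤ t ∧ |g r| ≤ c) ⟨s, fun z hz => hz.1⟩ h
  refine ⟨m, h1, h2, h3, fun r hr1 hr2 => ?_⟩
  by_contra hc
  have := h4 r ⟨hr1, by omega, not_lt.1 hc⟩
  omega

/-- The last time at which `|g|` is at most `c`. -/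
theorem last_low {s t c : ℤ} (g : ℤ → ℤ) (h : ∃ r, s ≤ r ∧ r ≤ t ∧ |g r| ≤ c) :
    ∃ m, s ≤ m ∧ m ≤ t ∧ |g m| ≤ c ∧ ∀ r, m < r → r ≤ t → c < |g r| := by
  obtain ⟨m, ⟨h1, h2, h3⟩, h4⟩ := Int.exists_greatest_of_bdd
    (P := fun r => s ≤ r ∧ r ≤ t ∧ |g r| ≤ c) ⟨t, fun z hz => hz.2.1⟩ h
  refine ⟨m, h1, h2, h3, fun r hr1 hr2 => ?_⟩
  by_contra hc
  have := h4 r ⟨by omega, hr2, not_lt.1 hc⟩
  omega

/-- One step. -/
theorem abs_step {s t : ℤ} {g : ℤ → ℤ} (h : IsPath s t g) {r : ℤ} (h1 : s ≤ r) (h2 : r < t) :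
    |g (r + 1)| ≤ |g r| + 1 ∧ |g r| ≤ |g (r + 1)| + 1 := by
  rcases h r h1 h2 with h3 | h3
  · have h4 : g (r + 1) = g r + 1 := by omega
    rw [h4]
    constructor <;> rcases abs_cases (g r + 1) with h5 | h5 <;>
      rcases abs_cases (g r) with h6 | h6 <;> omega
  · have h4 : g (r + 1) = g r - 1 := by omega
    rw [h4]
    constructor <;> rcases abs_cases (g r - 1) with h5 | h5 <;>
      rcases abs_cases (g r) with h6 | h6 <;> omega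

theorem isPath_sub {s t s' t' : ℤ} {g : ℤ → ℤ} (h : IsPath s t g) (h1 : s ≤ s') (h2 : t' ≤ t) :
    IsPath s' t' g := fun r hr1 hr2 => h r (by omega) (by omega)

/-- The first hitting point is exactly at the level. -/
theorem first_hit_eq {s t c : ℤ} {g : ℤ → ℤ} (hp : IsPath s t g) (hs : |g s| ≤ c)
    (h : ∃ r, s ≤ r ∧ r ≤ t ∧ c ≤ |g r|) :
    ∃ m, s ≤ m ∧ m ≤ t ∧ |g m| = c ∧ ∀ r, s ≤ r → r < m → |g r| < c := by
  obtain ⟨m, h1, h2, h3, h4⟩ := first_hit g h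
  refine ⟨m, h1, h2, le_antisymm ?_ h3, h4⟩
  rcases eq_or_lt_of_le h1 with h5 | h5
  · rw [← h5]; exact hs
  · have h6 := h4 (m - 1) (by omega) (by omega)
    have h7 := (abs_step hp (r := m - 1) (by omega) (by omega)).1
    rw [sub_add_cancel] at h7
    omega

theorem first_low_eq {s t c : ℤ} {g : ℤ → ℤ} (hp : IsPath s t g) (hs : c ≤ |g s|)
    (h : ∃ r, s ≤ r ∧ r ≤ t ∧ |g r| ≤ c) :
    ∃ m, s ≤ m ∧ m ≤ t ∧ |g m| = c ∧ ∀ r, s ≤ r → r < m → c < |g r| := by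
  obtain ⟨m, h1, h2, h3, h4⟩ := first_low g h
  refine ⟨m, h1, h2, le_antisymm h3 ?_, h4⟩
  rcases eq_or_lt_of_le h1 with h5 | h5
  · rw [← h5]; exact hs
  · have h6 := h4 (m - 1) (by omega) (by omega)
    have h7 := (abs_step hp (r := m - 1) (by omega) (by omega)).2
    rw [sub_add_cancel] at h7
    omega

theorem last_low_eq {s t c : ℤ} {g : ℤ → ℤ} (hp : IsPath s t g) (ht : c ≤ |g t|)
    (h : ∃ r, s ≤ r ∧ r ≤ t ∧ |g r| ≤ c) :
    ∃ m, s ≤ m ∧ m ≤ t ∧ |g m| = c ∧ ∀ r, m < r → r ≤ t → c < |g r| := by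
  obtain ⟨m, h1, h2, h3, h4⟩ := last_low g h
  refine ⟨m, h1, h2, le_antisymm h3 ?_, h4⟩
  rcases eq_or_lt_of_le h2 with h5 | h5
  · rw [h5]; exact ht
  · have h6 := h4 (m + 1) (by omega) (by omega)
    have h7 := (abs_step hp (r := m) (by omega) (by omega)).1
    omega

/-- The squared displacement between the levels `a` and `b`. -/
theorem disp_sq {x y a b : ℤ} (hx : |x| = a) (hy : b ≤ |y|) (hab : a ≤ b) :
    (b - a) ^ 2 ≤ (y - x) ^ 2 := by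
  have h1 : b - a ≤ |y - x| := by
    have := abs_sub_abs_le_abs_sub y x
    omega
  rw [← sq_abs (y - x)]
  exact pow_le_pow_left₀ (by omega) h1 2

/-- Weights outside the box. -/
theorem wt_agree {D : Dat} {ω ω' : Env} (h : Agree D ω ω') {s t : ℤ} {g : ℤ → ℤ}
    (hg : ∀ r, s < r → r ≤ t → D.A * D.w ≤ |g r|) : wt ω s t g = wt ω' s t g := by
  apply wt_congr
  intro r hr1 hr2
  apply h
  rintro ⟨_, _, h3⟩
  have := hg r hr1 hr2
  simp only at h3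
  omega

end Pool.Agent.H78.INS
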