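import Pool.Agent.H78.INS.FNP

/-!
# Module S1: rerouting an old near optimal path through the box
-/

open Pool.Agent.H99.NS Pool.Agent.H22.LPP

namespace Pool.Agent.H78.INS

open Pool.Agent.H95.INS

/-- Concatenation of five paths. -/
theorem five {o e p a b c : Site} {γ c1 m c2 : ℤ → ℤ} (h1 : o.1 ≤ p.1) (h2 : p.1 < a.1)
    (h3 : a.1 < b.1) (h4 : b.1 < c.1) (h5 : c.1 ≤ e.1) (k1 : Conn o p γ) (k2 : Conn p a c1)
    (k3 : Conn a b m) (k4 : Conn b c c2) (k5 : Conn c e γ) :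
    ∃ g : ℤ → ℤ, Conn o e g ∧ (∀ r ≤ p.1, g r = γ r) ∧ (∀ r, p.1 ≤ r → r ≤ a.1 → g r = c1 r) ∧
      (∀ r, a.1 ≤ r → r ≤ b.1 → g r = m r) ∧ (∀ r, b.1 ≤ r → r ≤ c.1 → g r = c2 r) ∧
      (∀ r, c.1 ≤ r → g r = γ r) := by
  have j1 := conn_concat h1 h2.le k1 k2
  have j2 := conn_concat (by omega) h3.le j1 k3
  have j3 := conn_concat (by omega) h4.le j2 k4
  have j4 := conn_concat (by omega) h5 j3 k5
  refine ⟨_, j4, ?_, ?_, ?_, ?_, ?_⟩
  · intro r hr
    rw [if_pos (by omega), if_pos (by omega), if_pos (by omega), if_pos (by omega)]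
  · intro r hr1 hr2
    rw [if_pos (by omega), if_pos (by omega), if_pos (by omega)]
    rcases eq_or_lt_of_le hr1 with h | h
    · rw [if_pos (by omega), ← h, k1.2.2, k2.2.1]
    · rw [if_neg (by omega)]
  · intro r hr1 hr2
    rw [if_pos (by omega), if_pos (by omega)]
    rcases eq_or_lt_of_le hr1 with h | h
    · rw [if_pos (by omega), if_neg (by omega), ← h, k2.2.2, k3.2.1]
    · rw [if_neg (by omega)]
  · intro r hr1 hr2
    rw [if_pos (by omega)]
    rcases eq_or_lt_of_le hr1 with h | h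
    · rw [if_pos (by omega), if_neg (by omega), ← h, k3.2.2, k4.2.1]
    · rw [if_neg (by omega)]
  · intro r hr
    rcases eq_or_lt_of_le hr with h | h
    · rw [if_pos (by omega), if_neg (by omega), ← h, k4.2.2, k5.2.1]
    · rw [if_neg (by omega)]

theorem reach_pt {D : Dat} (hD : D.Ok) {x : ℤ} (hx : |(x : ℝ)| ≤ D.B * D.w) :
    |x| ≤ D.A * D.w ∧ |x| ≤ 16 * D.n := by
  have h1 : |(x : ℝ)| ≤ D.A * D.w :=
    hx.trans (mul_le_mul_of_nonneg_right hD.BA (by linarith [ok_w hD]))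
  have h2 : |x| ≤ D.A * D.w := by exact_mod_cast h1
  refine ⟨h2, ?_⟩
  have h3 := hD.X1
  have h4 := hD.X2
  have h5 := hD.n1
  have e16 : 16 * D.A * D.w = 16 * (D.A * D.w) := by ring
  omega

/-- Cost of the connection at distance `252 n`. -/
theorem side {S n f B w x : ℝ} (hS : 0 < S) (hn : 0 < n) (hw : w ^ 2 = 8 * n * f)
    (hx : x ^ 2 ≤ (B * w) ^ 2) : S / 2 * x ^ 2 / (252 * n) ≤ S * B ^ 2 * f / 63 := by
  rw [div_le_div_iff₀ (by positivity) (by norm_num)]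
  have h1 : S / 2 * x ^ 2 * 63 ≤ S / 2 * (B * w) ^ 2 * 63 := by
    apply mul_le_mul_of_nonneg_right _ (by norm_num)
    exact mul_le_mul_of_nonneg_left hx (by positivity)
  have h2 : S / 2 * (B * w) ^ 2 * 63 = S * B ^ 2 * f * (252 * n) := by
    rw [mul_pow, hw]; ring
  linarith

theorem pf_S1 : T_S1 := by
  intro D ω ω' o e hD hA hE h1 h2 γ h3 m hm ma mb hM
  obtain ⟨⟨hγ, hγT⟩, hB1, hB2⟩ := h3
  have hn := hD.n1
  have hnr := ok_n hD
  have hwr := ok_w hD
  have hS := ok_sg hD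
  have hf := hD.f0
  have ho := hE.o1
  have he := hE.e1
  obtain ⟨x1, x2⟩ := reach_pt hD hB1
  obtain ⟨y1, y2⟩ := reach_pt hD hB2
  have hX := X_ge hD
  have hAw := ok_Aw hD
  have par0 : Even (o.1 + γ o.1) := by rw [hγ.2.1]; exact hE.oe
  have r1 := hγ.reach_mid (a := o.1) (b := -(256 * D.n)) le_rfl ho (by omega)
  have r2 := hγ.reach_mid (a := o.1) (b := 256 * D.n) le_rfl (by omega) he
  have R1 : Reach (-(256 * D.n), γ (-(256 * D.n))) (-(4 * D.n), 0) := by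
    refine ⟨?_, ?_⟩
    · simp only
      rw [zero_sub, abs_neg]
      omega
    · have q1 := r1.2
      simp only at q1 ⊢
      rw [Int.even_iff] at q1 par0 ⊢
      omega
  have R2 : Reach (4 * D.n, 0) (256 * D.n, γ (256 * D.n)) := by
    refine ⟨?_, ?_⟩
    · simp only
      rw [sub_zero]
      omega
    · have q1 := r2.2
      simp only at q1 ⊢
      rw [Int.even_iff] at q1 par0 ⊢
      omega
  obtain ⟨c1, k2, T1, _⟩ := T_attained ω' R1
  obtain ⟨c2, k4, T2, _⟩ := T_attained ω' R2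
  have k3 : Conn (-(4 * D.n), 0) (4 * D.n, 0) m := ⟨hm, ma, mb⟩
  have k1 : Conn o (-(256 * D.n), γ (-(256 * D.n))) γ := hγ.left (by omega)
  have k5 : Conn (256 * D.n, γ (256 * D.n)) e γ := hγ.right (by omega)
  obtain ⟨g, hg, g1, g2, g3, g4, g5⟩ := five (by simp only; omega) (by simp only; omega)
    (by simp only; omega) (by simp only; omega) (by simp only; omega) k1 k2 k3 k4 k5
  simp only at g1 g2 g3 g4 g5 T1 T2
  refine ⟨g, hg, g1, g5, g3, ?_⟩
  -- the environments agree outside the times of the box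
  have out1 : ∀ r y : ℤ, r ≤ -(4 * D.n) → ω (r, y) = ω' (r, y) := by
    intro r y hr
    apply hA
    rintro ⟨q1, _, _⟩
    simp only at q1
    omega
  have out2 : ∀ r y : ℤ, 4 * D.n < r → ω (r, y) = ω' (r, y) := by
    intro r y hr
    apply hA
    rintro ⟨_, q1, _⟩
    simp only at q1
    omega
  have w1 : wt ω o.1 (-(256 * D.n)) g = wt ω' o.1 (-(256 * D.n)) γ := by
    apply wt_congr
    intro r _ hr
    rw [g1 r hr]
    exact out1 _ _ (by omega)
  have w2 : wt ω (-(256 * D.n)) (-(4 * D.n)) g = wt ω' (-(256 * D.n)) (-(4 * D.n)) c1 := by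
    apply wt_congr
    intro r hr1 hr
    rw [g2 r hr1.le hr]
    exact out1 _ _ (by omega)
  have w3 : wt ω (-(4 * D.n)) (4 * D.n) g = wt ω (-(4 * D.n)) (4 * D.n) m := by
    apply wt_congr
    intro r hr1 hr
    rw [g3 r hr1.le hr]
  have w4 : wt ω (4 * D.n) (256 * D.n) g = wt ω' (4 * D.n) (256 * D.n) c2 := by
    apply wt_congr
    intro r hr1 hr
    rw [g4 r hr1.le hr]
    exact out2 _ _ hr1
  have w5 : wt ω (256 * D.n) e.1 g = wt ω' (256 * D.n) e.1 γ := by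
    apply wt_congr
    intro r hr1 hr
    rw [g5 r hr1.le]
    exact out2 _ _ (by omega)
  have W : wt ω o.1 e.1 g = wt ω' o.1 (-(256 * D.n)) γ +
      wt ω' (-(256 * D.n)) (-(4 * D.n)) c1 + wt ω (-(4 * D.n)) (4 * D.n) m +
      wt ω' (4 * D.n) (256 * D.n) c2 + wt ω' (256 * D.n) e.1 γ := by
    rw [wt_add ω ho (by omega) g, wt_add ω (show -(256 * D.n) ≤ -(4 * D.n) by omega)
      (by omega) g, wt_add ω (show -(4 * D.n) ≤ 4 * D.n by omega) (by omega) g,
      wt_add ω (show 4 * D.n ≤ 256 * D.n by omega) he g, w1, w2, w3, w4, w5]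
    ring
  have V : wt ω' o.1 e.1 γ = wt ω' o.1 (-(256 * D.n)) γ +
      wt ω' (-(256 * D.n)) (256 * D.n) γ + wt ω' (256 * D.n) e.1 γ := by
    rw [wt_add ω' ho (by omega) γ, wt_add ω' (show -(256 * D.n) ≤ 256 * D.n by omega) he γ]
    ring
  -- the old middle piece
  have U := O1_le' hD h1 (s := -(256 * D.n)) (t := 256 * D.n) (g := γ) le_rfl (by omega) le_rfl
    (isPath_sub hγ.1 ho he) (by omega) (by omega) hB1 hB2
  -- the two connections
  have L1 := h2.d (γ (-(256 * D.n))) 0 (by omega) (by rw [abs_zero]; omega) R1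
  have L2 := h2.e 0 (γ (256 * D.n)) (by rw [abs_zero]; omega) (by omega) R2
  have m1 : max |((γ (-(256 * D.n)) : ℤ) : ℝ)| |((0 : ℤ) : ℝ)| / D.w ≤ D.B := by
    rw [div_le_iff₀ (by linarith)]
    apply max_le hB1
    simp only [Int.cast_zero, abs_zero]
    exact mul_nonneg hD.B0 (by linarith)
  have m2 : max |((0 : ℤ) : ℝ)| |((γ (256 * D.n) : ℤ) : ℝ)| / D.w ≤ D.B := by
    rw [div_le_iff₀ (by linarith)]
    refine max_le ?_ hB2
    simp only [Int.cast_zero, abs_zero]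
    exact mul_nonneg hD.B0 (by linarith)
  have hKf : 0 ≤ D.K * D.f := mul_nonneg hD.K0 hD.f0.le
  have m3 := mul_le_mul_of_nonneg_left m1 hKf
  have m4 := mul_le_mul_of_nonneg_left m2 hKf
  have sq1 : ((γ (-(256 * D.n)) : ℤ) : ℝ) ^ 2 ≤ (D.B * D.w) ^ 2 := by
    rw [← sq_abs ((γ (-(256 * D.n)) : ℤ) : ℝ)]
    exact pow_le_pow_left₀ (abs_nonneg _) hB1 2
  have sq2 : ((γ (256 * D.n) : ℤ) : ℝ) ^ 2 ≤ (D.B * D.w) ^ 2 := by
    rw [← sq_abs ((γ (256 * D.n) : ℤ) : ℝ)]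
    exact pow_le_pow_left₀ (abs_nonneg _) hB2 2
  have s1 := side hS (n := D.n) (by linarith) hD.sc sq1
  have s2 := side hS (n := D.n) (by linarith) hD.sc sq2
  have p1 : par D.q (-(256 * D.n), γ (-(256 * D.n))) (-(4 * D.n), 0) =
      mu D.q * (252 * D.n) - sg D.q / 2 * ((γ (-(256 * D.n)) : ℤ) : ℝ) ^ 2 / (252 * D.n) := by
    unfold par
    simp only
    push_cast
    rw [show (-(4 * (D.n : ℝ)) - -(256 * (D.n : ℝ))) = 252 * D.n by ring,
      show ((0 : ℝ) - (γ (-(256 * D.n)) : ℝ)) ^ 2 = (γ (-(256 * D.n)) : ℝ) ^ 2 by ring]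
  have p2 : par D.q (4 * D.n, 0) (256 * D.n, γ (256 * D.n)) =
      mu D.q * (252 * D.n) - sg D.q / 2 * ((γ (256 * D.n) : ℤ) : ℝ) ^ 2 / (252 * D.n) := by
    unfold par
    simp only
    push_cast
    rw [show ((256 * (D.n : ℝ)) - 4 * (D.n : ℝ)) = 252 * D.n by ring, sub_zero]
  rw [p1, T1] at L1
  rw [p2, T2] at L2
  have hc := mul_le_mul_of_nonneg_right hD.c1 hf.le
  have hB2' : 0 ≤ sg D.q * D.B ^ 2 * D.f := by positivity
  have hsf : 0 ≤ sg D.q * D.f := by positivity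
  unfold Mlow at hM
  rw [W]
  rw [V] at hγT
  push_cast at U
  have e1 : mu D.q * ((256 * (D.n : ℝ)) - -(256 * (D.n : ℝ))) = mu D.q * (512 * D.n) := by ring
  rw [e1] at U
  linarith

end Pool.Agent.H78.INS

namespace Pool.Agent.H95.INS

theorem pf_S1 : T_S1 := Pool.Agent.H78.INS.pf_S1

end Pool.Agent.H95.INS
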