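import Pool.Agent.H78.INS.FNP

/-!
# Module S3: paths which are better than the old optimum stay in the wide strip
-/

open Pool.Agent.H99.NS Pool.Agent.H22.LPP

namespace Pool.Agent.H78.INS

open Pool.Agent.H95.INS

/-- The final computation. -/
theorem s3_num {s A K B H Y x y a b f M : ℝ} (hs : 0 < s) (hA : 2 ≤ A) (hK : 0 ≤ K)
    (hB : 0 ≤ B) (hY : 0 ≤ Y) (hf : 0 < f) (hx : 0 ≤ x) (hy : 0 ≤ y) (ha0 : 0 ≤ a)
    (hb0 : 0 ≤ b) (ha : a ≤ x + A) (hb : b ≤ y + A)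
    (hnu : H / 1000 + 3 * Y + 7 * K * (1 + B + 18 * A + x + y) +
      s / 2 * ((x + A + B) ^ 2 + (y + A + B) ^ 2) / (65 / 2) <
      s / 2 / (51 / 50) * ((x ^ 2 + y ^ 2 + (15 * A) ^ 2) / 2))
    (hM : M ≤ (Y + 2 * K * (1 + 16 * A + a) + 2 * K * (1 + 16 * A + b)) * f -
      s / 2 / (51 / 50) * ((x ^ 2 + y ^ 2 + (15 * A) ^ 2) / 2) * f) :
    M + (H / 1000 + K * (3 + 3 * B + a + b) +
      s / 2 * ((a + B) ^ 2 + (b + B) ^ 2) / (65 / 2)) * f < 0 := by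
  have q1 : (a + B) ^ 2 ≤ (x + A + B) ^ 2 := pow_le_pow_left₀ (by linarith) (by linarith) 2
  have q2 : (b + B) ^ 2 ≤ (y + A + B) ^ 2 := pow_le_pow_left₀ (by linarith) (by linarith) 2
  have q3 : s / 2 * ((a + B) ^ 2 + (b + B) ^ 2) / (65 / 2) ≤
      s / 2 * ((x + A + B) ^ 2 + (y + A + B) ^ 2) / (65 / 2) := by
    apply div_le_div_of_nonneg_right _ (by norm_num)
    apply mul_le_mul_of_nonneg_left _ (by positivity)
    linarith
  have q4 : 2 * K * (1 + 16 * A + a) + 2 * K * (1 + 16 * A + b) + K * (3 + 3 * B + a + b) ≤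
      7 * K * (1 + B + 18 * A + x + y) := by
    have h1 : 0 ≤ K * (7 * (1 + B + 18 * A + x + y) -
        (2 * (1 + 16 * A + a) + 2 * (1 + 16 * A + b) + (3 + 3 * B + a + b))) :=
      mul_nonneg hK (by linarith)
    linarith
  have q5 : 0 < (s / 2 / (51 / 50) * ((x ^ 2 + y ^ 2 + (15 * A) ^ 2) / 2) -
      (Y + 2 * K * (1 + 16 * A + a) + 2 * K * (1 + 16 * A + b) + (H / 1000 +
        K * (3 + 3 * B + a + b) + s / 2 * ((a + B) ^ 2 + (b + B) ^ 2) / (65 / 2)))) * f :=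
    mul_pos (by linarith) hf
  linarith

theorem pf_S3 (h_W : T_W) (h_INI : T_INI) (h_FNP : T_FNP) (h_XY : T_XY) (h_NU3 : T_NU3) :
    T_S3 := by
  intro D ω ω' o e hD hA hE hC h1 h2 γ h3 g hg hX1 hX2 htouch hlt r hr1 hr2
  by_contra hc
  have hn := hD.n1
  have hwr := ok_w hD
  have hAr := ok_A hD
  have hS := ok_sg hD
  have hf := hD.f0
  have ho := hE.o1
  have he := hE.e1
  have hH := ok_H hD
  have hY : 0 ≤ D.Y := by
    have := hD.c3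
    linarith
  have hp : IsPath (-(4 * D.n)) (4 * D.n) g := isPath_sub hg.1 (by omega) (by omega)
  obtain ⟨z, z1, z2, z3⟩ := htouch
  obtain ⟨r0, a1, a2, a3, a4⟩ := first_low (c := D.A * D.w) g ⟨z, z1, z2, z3.le⟩
  obtain ⟨r2, b1, b2, b3, b4⟩ := last_low (c := D.A * D.w) g ⟨z, z1, z2, z3.le⟩
  have h02 : r0 ≤ r2 := by
    by_contra hcon
    have := a4 r2 b1 (by omega)
    omega
  obtain ⟨i1, i2⟩ := h_INI D ω ω' hD hA h1 r0 g a1 a2 (isPath_sub hp le_rfl a2) hX1 a3 a4 _ rfl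
  obtain ⟨f1, f2⟩ := h_FNP D ω ω' hD hA h1 r2 g b1 b2 (isPath_sub hp b1 le_rfl) hX2 b3 b4 _ rfl
  obtain ⟨w1, w2⟩ := h_W D ω ω' hD hA hC h1 r0 r2 g a1 h02 b2 (isPath_sub hp a1 b2) a3 b3
  have xy := (h_XY D ω ω' o e hD hA hE h1 h2 γ h3 g hg hX1 hX2 _ _ rfl rfl).2
  have hfar : 16 * D.A * D.w ≤ |g r| := not_lt.1 hc
  have ha0 : 0 ≤ |(g (-(4 * D.n)) : ℝ)| / D.w := by positivity
  have hb0 : 0 ≤ |(g (4 * D.n) : ℝ)| / D.w := by positivity
  generalize |(g (-(4 * D.n)) : ℝ)| / D.w = a at *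
  generalize |(g (4 * D.n) : ℝ)| / D.w = b at *
  have hx : a ≤ max 0 (a - D.A) + D.A := by
    have := le_max_right 0 (a - D.A)
    linarith
  have hy : b ≤ max 0 (b - D.A) + D.A := by
    have := le_max_right 0 (b - D.A)
    linarith
  have hx0 : 0 ≤ max 0 (a - D.A) := le_max_left _ _
  have hy0 : 0 ≤ max 0 (b - D.A) := le_max_left _ _
  generalize max 0 (a - D.A) = x at *
  generalize max 0 (b - D.A) = y at *
  have hnu := h_NU3 (sg D.q) D.A D.K D.B D.H D.Y x y hS hAr hD.K0 hD.B0 hD.BA hD.c2 hD.c3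
    hD.c4 hx0 hy0
  have k1 : 0 ≤ sg D.q / 2 / (51 / 50) * x ^ 2 * D.f := by positivity
  have k2 : 0 ≤ sg D.q / 2 / (51 / 50) * y ^ 2 * D.f := by positivity
  have k3 : 0 ≤ sg D.q * D.A ^ 2 * D.f := by positivity
  have k4 : 0 ≤ D.Y * D.f := by positivity
  have e1 : ((r0 - -(4 * D.n) : ℤ) : ℝ) + ((r2 - r0 : ℤ) : ℝ) + ((4 * D.n - r2 : ℤ) : ℝ) =
      8 * D.n := by
    push_cast; ring
  have e2 : mu D.q * ((r0 - -(4 * D.n) : ℤ) : ℝ) + mu D.q * ((r2 - r0 : ℤ) : ℝ) +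
      mu D.q * ((4 * D.n - r2 : ℤ) : ℝ) = mu D.q * (8 * D.n) := by
    rw [← e1]; ring
  have W : wt ω (-(4 * D.n)) (4 * D.n) g = wt ω (-(4 * D.n)) r0 g + wt ω r0 r2 g +
      wt ω r2 (4 * D.n) g := by
    rw [wt_add ω a1 a2 g, wt_add ω h02 b2 g]
    ring
  have hM : wt ω (-(4 * D.n)) (4 * D.n) g - mu D.q * (8 * D.n) ≤
      (D.Y + 2 * D.K * (1 + 16 * D.A + a) + 2 * D.K * (1 + 16 * D.A + b)) * D.f -
      sg D.q / 2 / (51 / 50) * ((x ^ 2 + y ^ 2 + (15 * D.A) ^ 2) / 2) * D.f := by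
    rw [W, ← e2]
    rcases le_total r r0 with h | h
    · have i3 := i2 ⟨r, hr1, h, hfar⟩
      linarith
    · rcases le_total r r2 with h' | h'
      · have w3 := w2 ⟨r, h, h', hfar⟩
        linarith
      · have f3 := f2 ⟨r, h', hr2, hfar⟩
        linarith
  have fin := s3_num hS hAr hD.K0 hD.B0 hY hf hx0 hy0 ha0 hb0 hx hy hnu hM
  linarith

end Pool.Agent.H78.INS

namespace Pool.Agent.H95.INS

theorem pf_S3 (h_W : T_W) (h_INI : T_INI) (h_FNP : T_FNP) (h_XY : T_XY) (h_NU3 : T_NU3) :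
    T_S3 := Pool.Agent.H78.INS.pf_S3 h_W h_INI h_FNP h_XY h_NU3

end Pool.Agent.H95.INS
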