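import Pool.Agent.H78.INS.FNP

/-!
# Module W: wandering paths between two points of the strip of the box
-/

open Pool.Agent.H99.NS Pool.Agent.H22.LPP

namespace Pool.Agent.H78.INS

open Pool.Agent.H95.INS

theorem pf_W_aux (D : Dat) (ω ω' : Env) (hD : D.Ok) (hA : Agree D ω ω') (hC : CU D ω)
    (h1 : O1 D ω') : ∀ (N : ℕ) (s t : ℤ) (g : ℤ → ℤ), (t - s).toNat < N → -(4 * D.n) ≤ s →
    s ≤ t → t ≤ 4 * D.n → IsPath s t g → |g s| ≤ D.A * D.w → |g t| ≤ D.A * D.w →
    wt ω s t g ≤ mu D.q * ((t - s : ℤ) : ℝ) + D.Y * D.f ∧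
    ((∃ r, s ≤ r ∧ r ≤ t ∧ 16 * D.A * D.w ≤ |g r|) →
      wt ω s t g ≤ mu D.q * ((t - s : ℤ) : ℝ) - 100 * sg D.q * D.A ^ 2 * D.f) := by
  have hn := hD.n1
  have hnr := ok_n hD
  have hwr := ok_w hD
  have hAr := ok_A hD
  have hAw := ok_Aw hD
  have hX1 := hD.X1
  have e16 : 16 * D.A * D.w = 16 * (D.A * D.w) := by ring
  have hKf : 0 ≤ D.K * D.f := mul_nonneg hD.K0 hD.f0.le
  have hS := ok_sg hD
  have hf := hD.f0
  have hY : 0 ≤ D.Y := by
    have := ok_H hD
    have := hD.c3
    linarith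
  -- crude bound in the wide strip
  have crude : ∀ s t g, -(4 * D.n) ≤ s → s ≤ t → t ≤ 4 * D.n → IsPath s t g →
      Stay (16 * D.A * D.w) s t g → wt ω s t g ≤ mu D.q * ((t - s : ℤ) : ℝ) + D.Y * D.f := by
    intro s t g a1 a2 a3 a4 a5
    have a6 := hC s t g a1 a2 a3 a4 a5
    have a7 := sp_le hD.q0 hD.q1 (dl := 8 * D.n / 50) (by positivity) a2 g
    linarith
  intro N
  induction N with
  | zero => intro s t g h; omega
  | succ N ih =>
    intro s t g hN hs hst ht hp gs gt
    by_cases hex : ∃ r, s ≤ r ∧ r ≤ t ∧ 16 * D.A * D.w ≤ |g r|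
    · suffices hmain : wt ω s t g ≤
          mu D.q * ((t - s : ℤ) : ℝ) - 100 * sg D.q * D.A ^ 2 * D.f by
        refine ⟨?_, fun _ => hmain⟩
        have a1 : 0 ≤ 100 * sg D.q * (D.A : ℝ) ^ 2 * D.f := by positivity
        have a2 : 0 ≤ D.Y * D.f := mul_nonneg hY hf.le
        linarith
      obtain ⟨m, m1, m2, m3, m4⟩ := first_hit_eq (c := 16 * D.A * D.w) hp (by omega) hex
      obtain ⟨u, u1, u2, u3, u4⟩ := last_low_eq (c := D.A * D.w) (isPath_sub hp le_rfl m2)
        (by omega) ⟨s, le_rfl, m1, gs⟩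
      obtain ⟨v, v1, v2, v3, v4⟩ := first_low_eq (c := D.A * D.w) (isPath_sub hp m1 le_rfl)
        (by omega) ⟨t, m2, le_rfl, gt⟩
      have hum : u < m := by
        rcases eq_or_lt_of_le u2 with h | h
        · subst h; omega
        · exact h
      have hmv : m < v := by
        rcases eq_or_lt_of_le v1 with h | h
        · subst h; omega
        · exact h
      have hag : wt ω u v g = wt ω' u v g := by
        apply wt_agree hA
        intro r hr1 hr2
        rcases le_or_gt r m with h | h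
        · exact (u4 r hr1 h).le
        · rcases eq_or_lt_of_le hr2 with h5 | h5
          · rw [h5, v3]
          · exact (v4 r h.le h5).le
      have hXu : |g u| ≤ D.X := by rw [u3]; exact X_ge hD
      have hXv : |g v| ≤ D.X := by rw [v3]; exact X_ge hD
      have hXm : |g m| ≤ D.X := by omega
      have c1 : |(g u : ℝ)| ≤ (16 * D.A) * D.w := by
        have h5 : |(g u : ℝ)| ≤ D.A * D.w := cast_abs_le u3.le
        have h6 : 0 ≤ (15 * (D.A : ℝ)) * D.w := by positivity
        linarith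
      have c2 : |(g m : ℝ)| ≤ (16 * D.A) * D.w := by
        have : |g m| ≤ (16 * D.A) * D.w := m3.le
        exact_mod_cast this
      have c3 : |(g v : ℝ)| ≤ (16 * D.A) * D.w := by
        have h5 : |(g v : ℝ)| ≤ D.A * D.w := cast_abs_le v3.le
        have h6 : 0 ≤ (15 * (D.A : ℝ)) * D.w := by positivity
        linarith
      have q1 := O1_le hD h1 (s := u) (t := m) (g := g) (by omega) u2 (by omega)
        (isPath_sub hp u1 m2) hXu hXm c1 c2
      have q2 := O1_le hD h1 (s := m) (t := v) (g := g) (by omega) v1 (by omega)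
        (isPath_sub hp m1 v2) hXm hXv c2 c3
      have e15 : 15 * D.A * D.w = 15 * (D.A * D.w) := by ring
      have e1 : (15 * (D.A : ℝ) * D.w) ^ 2 ≤ ((g m - g u : ℤ) : ℝ) ^ 2 := by
        have h5 : 15 * D.A * D.w ≤ |g m - g u| := by
          have := abs_sub_abs_le_abs_sub (g m) (g u)
          omega
        rw [← sq_abs (((g m - g u : ℤ) : ℝ))]
        apply pow_le_pow_left₀ (by positivity)
        exact_mod_cast h5
      have e2 : (15 * (D.A : ℝ) * D.w) ^ 2 ≤ ((g v - g m : ℤ) : ℝ) ^ 2 := by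
        have h5 : 15 * D.A * D.w ≤ |g v - g m| := by
          have := abs_sub_abs_le_abs_sub (g m) (g v)
          rw [abs_sub_comm] at this
          omega
        rw [← sq_abs (((g v - g m : ℤ) : ℝ))]
        apply pow_le_pow_left₀ (by positivity)
        exact_mod_cast h5
      have t1 : (0 : ℝ) ≤ ((m - u : ℤ) : ℝ) := by exact_mod_cast (by omega : 0 ≤ m - u)
      have t2 : (0 : ℝ) ≤ ((v - m : ℤ) : ℝ) := by exact_mod_cast (by omega : 0 ≤ v - m)
      have t3 : ((m - u : ℤ) : ℝ) + ((v - m : ℤ) : ℝ) ≤ 8 * D.n := by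
        exact_mod_cast (by omega : (m - u) + (v - m) ≤ 8 * D.n)
      have q3 := num2 hS (n := D.n) (by linarith) hD.sc t1 t2 t3 hf e1 e2
      unfold sp at q1 q2
      -- the first and the last piece
      have r1 : wt ω s u g ≤ mu D.q * ((u - s : ℤ) : ℝ) + D.Y * D.f := by
        apply crude s u g hs u1 (by omega) (isPath_sub hp le_rfl (by omega))
        intro r hr1 hr2
        rcases eq_or_lt_of_le hr2 with h | h
        · rw [h, u3]; omega
        · exact m4 r hr1 (by omega)
      have r2 := (ih v t g (by omega) (by omega) v2 ht (isPath_sub hp (by omega) le_rfl)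
        v3.le gt).1
      have hKH : D.K * (1 + 16 * D.A) ≤ sg D.q * D.A ^ 2 / 4000 := by
        have := hD.c2
        have := hD.c3
        have := hD.c4
        linarith
      have hY4 := hD.c4
      have m5 : D.K * D.f * (1 + 16 * D.A) ≤ sg D.q * D.A ^ 2 / 4000 * D.f := by
        have := mul_le_mul_of_nonneg_right hKH hf.le
        linarith
      have m6 : 4 * D.Y * D.f ≤ sg D.q * D.A ^ 2 * D.f := mul_le_mul_of_nonneg_right hY4 hf.le
      have m7 : 0 ≤ sg D.q * (D.A : ℝ) ^ 2 * D.f := by positivity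
      rw [wt_add ω (show s ≤ u from u1) (show u ≤ t by omega) g,
        wt_add ω (show u ≤ v by omega) v2 g, hag, wt_add ω' u2 v1 g]
      have e3 : mu D.q * ((t - s : ℤ) : ℝ) =
          mu D.q * ((u - s : ℤ) : ℝ) + mu D.q * ((m - u : ℤ) : ℝ) +
          mu D.q * ((v - m : ℤ) : ℝ) + mu D.q * ((t - v : ℤ) : ℝ) := by
        push_cast; ring
      rw [e3]
      linarith
    · refine ⟨?_, fun h => absurd h hex⟩
      apply crude s t g hs hst ht hp
      intro r hr1 hr2
      by_contra hc
      exact hex ⟨r, hr1, hr2, not_lt.1 hc⟩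

theorem pf_W : T_W := by
  intro D ω ω' hD hA hC h1 s t g hs hst ht hp gs gt
  exact pf_W_aux D ω ω' hD hA hC h1 ((t - s).toNat + 1) s t g (by omega) hs hst ht hp gs gt

end Pool.Agent.H78.INS

namespace Pool.Agent.H95.INS

theorem pf_W : T_W := Pool.Agent.H78.INS.pf_W

end Pool.Agent.H95.INS
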